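import Pool.Agent.Q72.AL.Stm4

/-!
# Project AL of helper72: the mean of the weighted mass `N2`, second part (helper174)
-/

set_option autoImplicit false

open Complex MeasureTheory Filter Topology Set
open H345 (Zo aa XX)
open Pool.Agent.Q72.AL

namespace Pool.Agent.Q174.AL

lemma zz_cont (Z : Finset ℝ) : Continuous (fun p : ℝ × ℝ => ZZ Z 1 p.2 p.1) := by
  unfold ZZ
  fun_prop

lemma n2_cont (Z : Finset ℝ) : Continuous (fun T : ℝ => N2 Z T) := by
  unfold N2
  fun_prop

lemma avg (F : ℝ → ℝ → ℝ) (hFc : Continuous (Function.uncurry F)) (N : ℝ → ℝ) (hN : Continuous N)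
    (a b L C1 M : ℝ) (hab : a ≤ b) (hL : 0 < L) (hv1 : -L ≤ L + C1)
    (h : ∀ T ∈ Icc a b, N T ≤ 4 / L * (∫ v in (-L)..(L + C1), F T v) + 1)
    (hM : ∀ v ∈ Icc (-L) (L + C1), ∫ T in a..b, F T v ≤ M) :
    ∫ T in a..b, N T ≤ 4 / L * ((2 * L + C1) * M) + (b - a) := by
  have hpc : Continuous (fun T : ℝ => ∫ v in (-L)..(L + C1), F T v) :=
    intervalIntegral.continuous_parametric_intervalIntegral_of_continuous' hFc _ _
  have hA : ∫ T in a..b, N T ≤ ∫ T in a..b, (4 / L * (∫ v in (-L)..(L + C1), F T v) + 1) := by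
    refine intervalIntegral.integral_mono_on hab (hN.intervalIntegrable _ _) ?_ h
    exact ((continuous_const.mul hpc).add continuous_const).intervalIntegrable _ _
  have hB : ∫ T in a..b, (4 / L * (∫ v in (-L)..(L + C1), F T v) + 1) =
      4 / L * (∫ v in (-L)..(L + C1), ∫ T in a..b, F T v) + (b - a) := by
    rw [intervalIntegral.integral_add, intervalIntegral.integral_const_mul,
      intervalIntegral_intervalIntegral_swap, intervalIntegral.integral_const, smul_eq_mul, mul_one]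
    · refine (hFc.continuousOn.integrableOn_compact
        ((isCompact_uIcc (a := a) (b := b)).prod
          (isCompact_uIcc (a := -L) (b := L + C1)))).mono_set ?_
      exact Set.prod_mono uIoc_subset_uIcc uIoc_subset_uIcc
    · exact (continuous_const.mul hpc).intervalIntegrable _ _
    · exact continuous_const.intervalIntegrable _ _
  have hsw : Continuous (Function.uncurry fun v T : ℝ => F T v) := hFc.comp continuous_swap
  have hD : ∫ v in (-L)..(L + C1), ∫ T in a..b, F T v ≤ (2 * L + C1) * M := by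
    calc ∫ v in (-L)..(L + C1), ∫ T in a..b, F T v ≤ ∫ _v in (-L)..(L + C1), M := by
          refine intervalIntegral.integral_mono_on hv1 ?_ ?_ hM
          · refine Continuous.intervalIntegrable ?_ _ _
            exact intervalIntegral.continuous_parametric_intervalIntegral_of_continuous' hsw _ _
          · exact continuous_const.intervalIntegrable _ _
      _ = (2 * L + C1) * M := by
          rw [intervalIntegral.integral_const, smul_eq_mul]
          ring
  calc ∫ T in a..b, N T ≤ 4 / L * (∫ v in (-L)..(L + C1), ∫ T in a..b, F T v) + (b - a) := by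
        rw [← hB]; exact hA
    _ ≤ 4 / L * ((2 * L + C1) * M) + (b - a) :=
        add_le_add (mul_le_mul_of_nonneg_left hD (by positivity)) le_rfl

lemma sqb (f g : ℝ → ℂ) (hf : Continuous f) (hg : Continuous g) (a b E : ℝ) (hab : a ≤ b)
    (h : ∀ T ∈ Icc a b, ‖g T - f T‖ ≤ E) :
    ∫ T in a..b, ‖f T‖ ^ 2 ≤ 2 * (∫ T in a..b, ‖g T‖ ^ 2) + 2 * E ^ 2 * (b - a) := by
  have h1 : ∫ T in a..b, ‖f T‖ ^ 2 ≤ ∫ T in a..b, (2 * ‖g T‖ ^ 2 + 2 * E ^ 2) := by
    refine intervalIntegral.integral_mono_on hab ((hf.norm.pow 2).intervalIntegrable _ _)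
      (((continuous_const.mul (hg.norm.pow 2)).add continuous_const).intervalIntegrable _ _) ?_
    intro T hT
    have h2 := h T hT
    have h3 : ‖f T‖ ≤ ‖g T‖ + E := by
      have := norm_sub_le (g T) (g T - f T)
      rw [sub_sub_cancel] at this
      linarith
    have h4 : ‖f T‖ ^ 2 ≤ (‖g T‖ + E) ^ 2 := pow_le_pow_left₀ (norm_nonneg _) h3 2
    have h5 : 2 * ‖g T‖ ^ 2 + 2 * E ^ 2 - (‖g T‖ + E) ^ 2 = (‖g T‖ - E) ^ 2 := by ring
    have h6 := sq_nonneg (‖g T‖ - E)
    linarith
  refine h1.trans (le_of_eq ?_)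
  rw [intervalIntegral.integral_add, intervalIntegral.integral_const_mul,
    intervalIntegral.integral_const, smul_eq_mul]
  · ring
  · exact (continuous_const.mul (hg.norm.pow 2)).intervalIntegrable _ _
  · exact continuous_const.intervalIntegrable _ _

lemma arith (Cm C1 L X v I : ℝ) (hCm : 0 < Cm) (hC1 : 0 ≤ C1) (hX1 : 1 ≤ X) (hexpL : Real.exp L = X)
    (hv : v ≤ L + C1) (h : I ≤ Cm * (X + (Real.exp v + Real.exp (2 * v)) / X)) :
    I ≤ (Cm + 2 * Cm * Real.exp (2 * C1)) * X := by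
  have hX0 : 0 < X := by linarith
  have e1 : Real.exp v ≤ X * Real.exp C1 := by
    rw [← hexpL, ← Real.exp_add]
    exact Real.exp_le_exp.2 hv
  have e2 : Real.exp (2 * v) ≤ X ^ 2 * Real.exp (2 * C1) := by
    have : Real.exp (2 * v) ≤ Real.exp (2 * (L + C1)) := Real.exp_le_exp.2 (by linarith)
    refine this.trans (le_of_eq ?_)
    rw [mul_add, Real.exp_add, two_mul L, Real.exp_add, hexpL]
    ring
  have e3 : X * Real.exp C1 ≤ X ^ 2 * Real.exp (2 * C1) := by
    have h6 : Real.exp C1 ≤ Real.exp (2 * C1) := Real.exp_le_exp.2 (by linarith)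
    have h7 : X ≤ X ^ 2 := by
      rw [sq]
      exact le_mul_of_one_le_left hX0.le hX1
    exact mul_le_mul h7 h6 (Real.exp_pos _).le (by positivity)
  have e4 : (Real.exp v + Real.exp (2 * v)) / X ≤ 2 * Real.exp (2 * C1) * X := by
    rw [div_le_iff₀ hX0]
    calc Real.exp v + Real.exp (2 * v) ≤ 2 * (X ^ 2 * Real.exp (2 * C1)) := by linarith
      _ = 2 * Real.exp (2 * C1) * X * X := by ring
  have h9 := mul_le_mul_of_nonneg_left e4 hCm.le
  calc I ≤ Cm * (X + (Real.exp v + Real.exp (2 * v)) / X) := h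
    _ = Cm * X + Cm * ((Real.exp v + Real.exp (2 * v)) / X) := by ring
    _ ≤ Cm * X + Cm * (2 * Real.exp (2 * C1) * X) := by linarith
    _ = _ := by ring

lemma c1 (f : ℝ → ℝ → ℂ) (hf : Continuous fun p : ℝ × ℝ => f p.2 p.1) (v : ℝ) :
    Continuous (fun T : ℝ => f v T) :=
  hf.comp (Continuous.prodMk continuous_id (continuous_const (y := v)))

lemma c2 (f : ℝ → ℝ → ℂ) (hf : Continuous fun p : ℝ × ℝ => f p.1 p.2) (v : ℝ) :
    Continuous (fun T : ℝ => f v T) :=
  hf.comp (Continuous.prodMk (continuous_const (y := v)) continuous_id)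

attribute [local irreducible] DD ZZ N2

theorem n2b (h1 : J_N2PB) (h2 : J_MVS) (h3 : J_DDC) : J_N2B := by
  intro hRH a C0 hC0
  obtain ⟨δ0, X1, hδ0, hX1⟩ := h1 hRH a
  obtain ⟨Cm, hCm, hm⟩ := h2
  obtain ⟨C1, hC1⟩ : ∃ C1 : ℝ, C1 = 6 + 2 * |a| := ⟨_, rfl⟩
  have hC1pos : 6 ≤ C1 := by rw [hC1]; have := abs_nonneg a; linarith
  obtain ⟨C', hC'⟩ : ∃ C' : ℝ, C' = 2 * (Cm + 2 * Cm * Real.exp (2 * C1)) + 28 * C0 ^ 2 := ⟨_, rfl⟩
  have hC'pos : 0 < C' := by rw [hC']; positivity
  refine ⟨δ0, 16 * C' + 4, max X1 (Real.exp C1), hδ0, by positivity, ?_⟩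
  intro X δ hX hδ hδ1 hyp Z hZ
  have hXe : Real.exp C1 ≤ X := (le_max_right _ _).trans hX
  have hXX1 : X1 ≤ X := (le_max_left _ _).trans hX
  have hX1' : 1 ≤ X := by
    have : (1 : ℝ) ≤ Real.exp C1 := Real.one_le_exp (by linarith)
    linarith
  have hX0 : 0 < X := by linarith
  obtain ⟨L, hL⟩ : ∃ L : ℝ, L = Real.log X := ⟨_, rfl⟩
  have hLC : C1 ≤ L := by
    rw [hL, Real.le_log_iff_exp_le hX0]
    exact hXe
  have hL0 : 0 < L := by linarith
  have hexpL : Real.exp L = X := by rw [hL]; exact Real.exp_log hX0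
  have hpt := hX1 X δ hXX1 hδ hδ1 hyp Z hZ.sub
  have hbd : L + 6 + 2 * |a| = L + C1 := by rw [hC1]; ring
  have hFc : Continuous (Function.uncurry fun T v : ℝ => ‖ZZ Z 1 v T‖ ^ 2) :=
    ((zz_cont Z).norm).pow 2
  have hDc : Continuous (fun p : ℝ × ℝ => DD 1 p.1 p.2) := (h3 1 le_rfl (by norm_num)).1
  have hmain : ∫ T in (X / 2)..(4 * X), N2 Z T ≤
      4 / L * ((2 * L + C1) * (C' * X)) + (4 * X - X / 2) := by
    refine avg (fun T v : ℝ => ‖ZZ Z 1 v T‖ ^ 2) hFc (fun T => N2 Z T) (n2_cont Z) (X / 2) (4 * X) L C1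
      (C' * X) (by linarith) hL0 (by linarith) ?_ ?_
    · intro T hT
      have h := hpt T hT.1 hT.2
      rw [← hL, hbd] at h
      exact h
    · intro v hv
      have hvabs : |v| ≤ 3 * Real.log X := by
        rw [← hL, abs_le]
        constructor
        · linarith [hv.1]
        · linarith [hv.2]
      have hexpv : Real.exp (-v) ≤ X := by
        rw [← hexpL]
        exact Real.exp_le_exp.2 (by linarith [hv.1])
      have hDv : Continuous (fun T : ℝ => DD 1 v T) := c2 (DD 1) hDc v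
      have hZv : Continuous (fun T : ℝ => ZZ Z 1 v T) := c1 (ZZ Z 1) (zz_cont Z) v
      have hs := sqb (fun T => ZZ Z 1 v T) (fun T => DD 1 v T) hZv hDv (X / 2) (4 * X) (2 * C0)
        (by linarith) (fun T hT => by
          refine (hZ.ef 1 v T le_rfl (by norm_num) (by linarith [hT.1]) (by linarith [hT.2])
            hvabs).trans ?_
          rw [div_le_iff₀ hX0]
          calc C0 * (1 + Real.exp (-v)) ≤ C0 * (X + X) :=
                mul_le_mul_of_nonneg_left (by linarith) hC0.le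
            _ = 2 * C0 * X := by ring)
      have hmv := hm 1 v X le_rfl (by norm_num) hX1'
      have har := arith Cm C1 L X v _ hCm (by linarith) hX1' hexpL hv.2 hmv
      calc ∫ T in (X / 2)..(4 * X), ‖ZZ Z 1 v T‖ ^ 2
          ≤ 2 * (∫ T in (X / 2)..(4 * X), ‖DD 1 v T‖ ^ 2) + 2 * (2 * C0) ^ 2 * (4 * X - X / 2) := hs
        _ ≤ 2 * ((Cm + 2 * Cm * Real.exp (2 * C1)) * X) + 2 * (2 * C0) ^ 2 * (4 * X - X / 2) := by
            linarith
        _ = C' * X := by rw [hC']; ring
  have hfin : 4 / L * ((2 * L + C1) * (C' * X)) ≤ 16 * C' * X := by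
    have h5 : (2 * L + C1) * (C' * X) ≤ (4 * L) * (C' * X) :=
      mul_le_mul_of_nonneg_right (by linarith) (by positivity)
    calc 4 / L * ((2 * L + C1) * (C' * X)) ≤ 4 / L * ((4 * L) * (C' * X)) :=
          mul_le_mul_of_nonneg_left h5 (by positivity)
      _ = 16 * C' * X := by
          field_simp
          ring
  linarith

end Pool.Agent.Q174.AL
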